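import Pool.Agent.helper5.BEY.SpecA

/-!
# Project BEY, row OS0 (helper79)
-/

set_option autoImplicit false

open Complex MeasureTheory

namespace Pool.Agent.BEY

theorem OS0_el {y : ℝ} (hy : 0 < y) : HasDerivAt el (-(1 / (y * (y + 1)))) y := by
  have h1 : HasDerivAt (fun y : ℝ => 1 + 1 / y) (-(1 / y ^ 2)) y := by
    have h := (hasDerivAt_inv hy.ne').const_add 1
    have e : (fun x : ℝ => 1 + x⁻¹) = fun y : ℝ => 1 + 1 / y := by
      funext x
      rw [one_div]
    rw [e] at h
    have e2 : -(y ^ 2)⁻¹ = -(1 / y ^ 2) := by rw [one_div]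
    rwa [e2] at h
  have h2 : (1 + 1 / y) ≠ 0 := by positivity
  have h3 := h1.log h2
  have e3 : -(1 / y ^ 2) / (1 + 1 / y) = -(1 / (y * (y + 1))) := by
    field_simp
  rw [e3] at h3
  exact h3

/-- support in `[Q, 4Q]` -/
theorem OS0_supp {Q : ℝ} (hQ : 1 ≤ Q) (f : ℝ → ℂ) (hf : ∀ y, y ∉ Set.Icc Q (4 * Q) → f y = 0) :
    ∫ y : ℝ, f y = ∫ y in Q..(4 * Q), f y := by
  rw [intervalIntegral.integral_of_le (by linarith), ← integral_Icc_eq_integral_Ioc]
  exact (setIntegral_eq_integral_of_forall_compl_eq_zero hf).symm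

theorem OS0_main (hIBP : IBP_stmt) {Q s : ℝ} (hQ : 1 ≤ Q) {a : ℝ → ℝ} (ha : ContDiff ℝ 1 a)
    (h0 : ∀ y, y ∉ Set.Icc Q (4 * Q) → a y = 0) (h1 : ∀ y, |a y| ≤ 1) (h2 : ∀ y, |deriv a y| ≤ 2 / Q) :
    |s| * ‖∫ y : ℝ, ((a y : ℝ) : ℂ) * Complex.exp (((-(s * el y) : ℝ) : ℂ) * I)‖ ≤ 200 * Q ^ 2 := by
  by_cases hs : s = 0
  · rw [hs, abs_zero, zero_mul]
    positivity
  have hs' : 0 < |s| := abs_pos.2 hs
  have hQ0 : 0 < Q := by linarith
  rw [OS0_supp hQ _ (fun y hy => by rw [h0 y hy]; simp)]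
  have hle : Q ≤ 4 * Q := by linarith
  have hda : Continuous (deriv a) := ha.continuous_deriv le_rfl
  have hcont : Continuous (fun y : ℝ => (deriv a y * (y * (y + 1)) + a y * (2 * y + 1)) / s) := by
    have := ha.continuous
    fun_prop
  have hpos : ∀ y ∈ Set.Icc Q (4 * Q), 0 < y := fun y hy => lt_of_lt_of_le hQ0 hy.1
  have key := hIBP Q (4 * Q) (fun y => a y * (y * (y + 1)) / s)
    (fun y => (deriv a y * (y * (y + 1)) + a y * (2 * y + 1)) / s) (fun y => -(s * el y))
    (fun y => s * (1 / (y * (y + 1)))) hle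
    (by
      intro y hy
      have d1 : HasDerivAt a (deriv a y) y := (ha.differentiable one_ne_zero y).hasDerivAt
      have d2 : HasDerivAt (fun y : ℝ => y * (y + 1)) (2 * y + 1) y := by
        have := (hasDerivAt_id y).mul ((hasDerivAt_id y).add_const 1)
        have e : (1 : ℝ) * (id y + 1) + id y * 1 = 2 * y + 1 := by
          simp only [id]
          ring
        rw [e] at this
        exact this
      exact (d1.mul d2).div_const s)
    (by
      intro y hy
      have := ((OS0_el (hpos y hy)).const_mul s).neg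
      have e : -(s * -(1 / (y * (y + 1)))) = s * (1 / (y * (y + 1))) := by ring
      rw [e] at this
      exact this)
    hcont.continuousOn
    (by
      refine ContinuousOn.mul continuousOn_const (ContinuousOn.div continuousOn_const (by fun_prop) fun y hy => ?_)
      have := hpos y hy
      positivity)
  have e1 : ∫ y in Q..(4 * Q), (((a y * (y * (y + 1)) / s) * (s * (1 / (y * (y + 1)))) : ℝ) : ℂ) *
      Complex.exp (((-(s * el y) : ℝ) : ℂ) * I) =
      ∫ y in Q..(4 * Q), ((a y : ℝ) : ℂ) * Complex.exp (((-(s * el y) : ℝ) : ℂ) * I) := by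
    refine intervalIntegral.integral_congr fun y hy => ?_
    rw [Set.uIcc_of_le hle] at hy
    have hy0 := hpos y hy
    have e : (a y * (y * (y + 1)) / s) * (s * (1 / (y * (y + 1)))) = a y := by
      field_simp
    change (((a y * (y * (y + 1)) / s) * (s * (1 / (y * (y + 1)))) : ℝ) : ℂ) * _ = _
    rw [e]
  have b1 : ∀ y ∈ Set.Icc Q (4 * Q), |a y * (y * (y + 1)) / s| ≤ 20 * Q ^ 2 / |s| := by
    intro y hy
    have hy0 := hpos y hy
    rw [abs_div, abs_mul, abs_of_pos (show 0 < y * (y + 1) by positivity)]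
    refine div_le_div_of_nonneg_right ?_ (abs_nonneg s)
    have a1 := h1 y
    have a2 : y * (y + 1) ≤ 20 * Q ^ 2 := by nlinarith [hy.2, hy.1]
    calc |a y| * (y * (y + 1)) ≤ 1 * (y * (y + 1)) := by gcongr
      _ ≤ 20 * Q ^ 2 := by rw [one_mul]; exact a2
  have b2 : ∀ y ∈ Set.Icc Q (4 * Q), |(deriv a y * (y * (y + 1)) + a y * (2 * y + 1)) / s| ≤ 49 * Q / |s| := by
    intro y hy
    have hy0 := hpos y hy
    rw [abs_div]
    refine div_le_div_of_nonneg_right ?_ (abs_nonneg s)
    have a1 := h1 y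
    have a2 := h2 y
    have a3 : |deriv a y * (y * (y + 1)) + a y * (2 * y + 1)| ≤ |deriv a y| * (y * (y + 1)) + |a y| * (2 * y + 1) := by
      refine (abs_add_le _ _).trans (le_of_eq ?_)
      rw [abs_mul (deriv a y), abs_mul (a y), abs_of_pos (show 0 < y * (y + 1) by positivity), abs_of_pos (show 0 < 2 * y + 1 by positivity)]
    have a4 : |deriv a y| * (y * (y + 1)) ≤ 2 / Q * (4 * Q * (4 * Q + 1)) := by
      have := hy.2
      gcongr
    have a5 : |a y| * (2 * y + 1) ≤ 1 * (2 * (4 * Q) + 1) := by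
      have := hy.2
      gcongr
    have a6 : 2 / Q * (4 * Q * (4 * Q + 1)) = 8 * (4 * Q + 1) := by
      field_simp
      ring
    rw [a6] at a4
    linarith
  have hint : ∫ y in Q..(4 * Q), |(deriv a y * (y * (y + 1)) + a y * (2 * y + 1)) / s| ≤ 49 * Q / |s| * (3 * Q) := by
    have c1 : ∫ y in Q..(4 * Q), |(deriv a y * (y * (y + 1)) + a y * (2 * y + 1)) / s| ≤ ∫ y in Q..(4 * Q), 49 * Q / |s| :=
      intervalIntegral.integral_mono_on hle (hcont.abs.intervalIntegrable _ _) intervalIntegrable_const b2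
    refine c1.trans (le_of_eq ?_)
    rw [intervalIntegral.integral_const, smul_eq_mul]
    ring
  rw [e1] at key
  have k1 := b1 Q ⟨le_rfl, hle⟩
  have k2 := b1 (4 * Q) ⟨hle, le_rfl⟩
  have key2 : ‖∫ y in Q..(4 * Q), ((a y : ℝ) : ℂ) * Complex.exp (((-(s * el y) : ℝ) : ℂ) * I)‖ ≤
      20 * Q ^ 2 / |s| + 20 * Q ^ 2 / |s| + 49 * Q / |s| * (3 * Q) := key.trans (by linarith)
  calc |s| * ‖∫ y in Q..(4 * Q), ((a y : ℝ) : ℂ) * Complex.exp (((-(s * el y) : ℝ) : ℂ) * I)‖
      ≤ |s| * (20 * Q ^ 2 / |s| + 20 * Q ^ 2 / |s| + 49 * Q / |s| * (3 * Q)) := by gcongr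
    _ = 187 * Q ^ 2 := by
      field_simp
      ring
    _ ≤ 200 * Q ^ 2 := by nlinarith [sq_nonneg Q]

theorem OS0 (hIBP : IBP_stmt) : OS0_stmt := by
  refine ⟨200, by norm_num, fun Q t t' A B hQ hA hB => ⟨fun j => ?_, ?_, ?_⟩⟩
  · have hQ0 : 0 < Q := by linarith
    unfold OI
    rw [OS0_supp hQ _ (fun y hy => by rw [hB.2.1 y hy]; simp)]
    have hb : ∀ y ∈ Set.uIoc Q (4 * Q), ‖((A (y + j) * B y : ℝ) : ℂ) * (E t (y + j) * (starRingEnd ℂ) (E t' y))‖ ≤ 1 := by
      intro y _
      have n1 : ∀ s x : ℝ, ‖E s x‖ = 1 := fun s x => by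
        unfold E
        exact Complex.norm_exp_ofReal_mul_I _
      rw [norm_mul, norm_mul, RCLike.norm_conj, n1, n1, mul_one, mul_one, Complex.norm_real, Real.norm_eq_abs, abs_mul]
      have a1 := (hA.2.2 (y + j)).1
      have a2 := (hB.2.2 y).1
      calc |A (y + j)| * |B y| ≤ 1 * 1 := by gcongr
        _ = 1 := one_mul 1
    have := intervalIntegral.norm_integral_le_of_norm_le_const hb
    refine this.trans ?_
    rw [one_mul, abs_of_nonneg (by linarith)]
    linarith
  · have e : OI A B t t' 0 = ∫ y : ℝ, ((A y * B y : ℝ) : ℂ) * Complex.exp (((-((t - t') * el y) : ℝ) : ℂ) * I) := by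
      unfold OI
      refine integral_congr_ae (Filter.Eventually.of_forall fun y => ?_)
      simp only [Int.cast_zero, add_zero]
      congr 1
      unfold E
      rw [← Complex.exp_conj, ← Complex.exp_add]
      congr 1
      simp only [map_mul, Complex.conj_ofReal, Complex.conj_I]
      push_cast
      ring
    rw [e]
    refine OS0_main hIBP hQ (hA.1.mul hB.1) (fun y hy => by rw [hA.2.1 y hy, zero_mul]) (fun y => ?_) fun y => ?_
    · rw [abs_mul]
      have a1 := (hA.2.2 y).1
      have a2 := (hB.2.2 y).1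
      calc |A y| * |B y| ≤ 1 * 1 := by gcongr
        _ = 1 := one_mul 1
    · have d : deriv (fun y => A y * B y) y = deriv A y * B y + A y * deriv B y :=
        ((hA.1.differentiable one_ne_zero y).hasDerivAt.mul (hB.1.differentiable one_ne_zero y).hasDerivAt).deriv
      rw [d]
      have a1 := hA.2.2 y
      have a2 := hB.2.2 y
      have hQ0 : 0 < Q := by linarith
      calc |deriv A y * B y + A y * deriv B y| ≤ |deriv A y| * |B y| + |A y| * |deriv B y| := by
            rw [← abs_mul, ← abs_mul]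
            exact abs_add_le _ _
        _ ≤ 1 / Q * 1 + 1 * (1 / Q) := by
            have := a1.1
            have := a1.2
            have := a2.1
            have := a2.2
            gcongr
        _ = 2 / Q := by ring
  · refine OS0_main hIBP hQ hA.1 hA.2.1 (fun y => (hA.2.2 y).1) fun y => ?_
    refine ((hA.2.2 y).2).trans ?_
    gcongr
    norm_num

end Pool.Agent.BEY
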